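import Mathlib

/-!
# From Muckenhoupt's condition to the exponential integrability of the oscillation
-/

set_option autoImplicit false

namespace Pool.Agent.U823.EW

open MeasureTheory Filter Topology Set

/-- `∫ exp (r |log w - m|) ≤ 2 B (c - a)`, where `m` is the mean of `log w`. -/
theorem jn {w : ℝ → ℝ} (hw : ∀ u, 0 < w u) (hm : AEMeasurable w) {a c r B : ℝ} (hac : a < c)
    (hr : 0 < r) (h1 : IntervalIntegrable (fun u => w u ^ r) volume a c)
    (h2 : IntervalIntegrable (fun u => w u ^ (-r)) volume a c)
    (hB : (∫ u in a..c, w u ^ r) * (∫ u in a..c, w u ^ (-r)) ≤ B * (c - a) ^ 2) :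
    IntervalIntegrable (fun u => Real.log (w u)) volume a c ∧
    IntervalIntegrable (fun u => Real.exp (r * |Real.log (w u) -
      (c - a)⁻¹ * ∫ x in a..c, Real.log (w x)|)) volume a c ∧
    ∫ u in a..c, Real.exp (r * |Real.log (w u) - (c - a)⁻¹ * ∫ x in a..c, Real.log (w x)|) ≤
      2 * B * (c - a) := by
  have hca : 0 < c - a := by linarith
  have hpow : ∀ (s : ℝ) (u : ℝ), w u ^ s = Real.exp (s * Real.log (w u)) := by
    intro s u
    rw [Real.rpow_def_of_pos (hw u), mul_comm]
  have hlogm : AEStronglyMeasurable (fun u => Real.log (w u)) volume :=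
    (Real.measurable_log.comp_aemeasurable hm).aestronglyMeasurable
  have hlog : IntervalIntegrable (fun u => Real.log (w u)) volume a c := by
    refine ((h1.add h2).const_mul r⁻¹).mono_fun hlogm.restrict ?_
    refine Filter.Eventually.of_forall fun u => ?_
    have e1 := Real.add_one_le_exp (r * Real.log (w u))
    have e2 := Real.add_one_le_exp (-r * Real.log (w u))
    have p1 := Real.exp_pos (r * Real.log (w u))
    have p2 := Real.exp_pos (-r * Real.log (w u))
    simp only [Real.norm_eq_abs, hpow]
    rw [abs_of_pos (by positivity : 0 < r⁻¹ * (Real.exp (r * Real.log (w u)) +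
      Real.exp (-r * Real.log (w u)))), ← div_eq_inv_mul, le_div_iff₀ hr]
    rcases le_total 0 (Real.log (w u)) with h | h
    · rw [abs_of_nonneg h]
      linarith
    · rw [abs_of_nonpos h]
      linarith
  set m : ℝ := (c - a)⁻¹ * ∫ x in a..c, Real.log (w x) with hmdef
  have hmi : ∫ x in a..c, Real.log (w x) = m * (c - a) := by
    rw [hmdef]
    field_simp
  -- the two exponentials
  have e1 : ∀ (s : ℝ), (fun u => Real.exp (s * (Real.log (w u) - m))) =
      fun u => Real.exp (-(s * m)) * w u ^ s := by
    intro s
    funext u
    rw [hpow, ← Real.exp_add]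
    congr 1
    ring
  have i1 : IntervalIntegrable (fun u => Real.exp (r * (Real.log (w u) - m))) volume a c := by
    rw [e1]
    exact h1.const_mul _
  have i2 : IntervalIntegrable (fun u => Real.exp (-r * (Real.log (w u) - m))) volume a c := by
    rw [e1]
    exact h2.const_mul _
  have lower : ∀ s : ℝ, IntervalIntegrable (fun u => Real.exp (s * (Real.log (w u) - m)))
      volume a c → c - a ≤ ∫ u in a..c, Real.exp (s * (Real.log (w u) - m)) := by
    intro s hs
    have j1 : IntervalIntegrable (fun u => s * (Real.log (w u) - m) + 1) volume a c :=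
      ((hlog.sub intervalIntegrable_const).const_mul s).add intervalIntegrable_const
    have j2 : ∫ u in a..c, (s * (Real.log (w u) - m) + 1) = c - a := by
      rw [intervalIntegral.integral_add ((hlog.sub intervalIntegrable_const).const_mul s)
        intervalIntegrable_const, intervalIntegral.integral_const_mul,
        intervalIntegral.integral_sub hlog intervalIntegrable_const,
        intervalIntegral.integral_const, intervalIntegral.integral_const, hmi]
      simp only [smul_eq_mul]
      ring
    rw [← j2]
    exact intervalIntegral.integral_mono_on hac.le j1 hs fun u _ => Real.add_one_le_exp _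
  have l1 := lower r i1
  have l2 := lower (-r) i2
  set I1 := ∫ u in a..c, Real.exp (r * (Real.log (w u) - m)) with hI1
  set I2 := ∫ u in a..c, Real.exp (-r * (Real.log (w u) - m)) with hI2
  have hprod : I1 * I2 ≤ B * (c - a) ^ 2 := by
    refine le_trans (le_of_eq ?_) hB
    rw [hI1, hI2, e1, e1, intervalIntegral.integral_const_mul, intervalIntegral.integral_const_mul]
    have : Real.exp (-(r * m)) * Real.exp (-(-r * m)) = 1 := by
      rw [← Real.exp_add]
      simp
    calc _ = (Real.exp (-(r * m)) * Real.exp (-(-r * m))) *
          ((∫ u in a..c, w u ^ r) * ∫ u in a..c, w u ^ (-r)) := by ring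
      _ = _ := by rw [this, one_mul]
  have hI1p : 0 < I1 := lt_of_lt_of_le hca l1
  have hI2p : 0 < I2 := lt_of_lt_of_le hca l2
  have u1 : I1 ≤ B * (c - a) := by
    have h3 : I1 * (c - a) ≤ I1 * I2 := mul_le_mul_of_nonneg_left l2 hI1p.le
    have h4 : I1 * (c - a) ≤ B * (c - a) * (c - a) := by nlinarith
    exact le_of_mul_le_mul_right h4 hca
  have u2 : I2 ≤ B * (c - a) := by
    have h3 : (c - a) * I2 ≤ I1 * I2 := mul_le_mul_of_nonneg_right l1 hI2p.le
    have h4 : I2 * (c - a) ≤ B * (c - a) * (c - a) := by nlinarith
    exact le_of_mul_le_mul_right h4 hca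
  have hdom : ∀ u, Real.exp (r * |Real.log (w u) - m|) ≤
      Real.exp (r * (Real.log (w u) - m)) + Real.exp (-r * (Real.log (w u) - m)) := by
    intro u
    rcases le_total 0 (Real.log (w u) - m) with h | h
    · rw [abs_of_nonneg h]
      have := Real.exp_pos (-r * (Real.log (w u) - m))
      linarith
    · rw [abs_of_nonpos h]
      have := Real.exp_pos (r * (Real.log (w u) - m))
      have e : r * -(Real.log (w u) - m) = -r * (Real.log (w u) - m) := by ring
      rw [e]
      linarith
  have i3 : IntervalIntegrable (fun u => Real.exp (r * |Real.log (w u) - m|)) volume a c := by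
    refine (i1.add i2).mono_fun ?_ ?_
    · refine AEStronglyMeasurable.restrict ?_
      refine Real.continuous_exp.comp_aestronglyMeasurable ?_
      exact ((hlogm.sub aestronglyMeasurable_const).norm).const_mul r
    · refine Filter.Eventually.of_forall fun u => ?_
      simp only [Real.norm_eq_abs]
      rw [abs_of_pos (Real.exp_pos _)]
      exact (hdom u).trans (le_abs_self _)
  refine ⟨hlog, i3, ?_⟩
  have h5 := intervalIntegral.integral_mono_on hac.le i3 (i1.add i2) fun u _ => hdom u
  rw [intervalIntegral.integral_add i1 i2] at h5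
  refine h5.trans ?_
  linarith

end Pool.Agent.U823.EW
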