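import Pool.Agent.U823.EW.Har
import Pool.Agent.U823.EW.JN
import Pool.Agent.TH345.ET.X

/-!
# The weights of the elliptic curves
-/

set_option autoImplicit false

namespace Pool.Agent.U823.EW

open NumberField IsDedekindDomain MeasureTheory Filter Topology
open Pool.Agent.TH339.MP Pool.Agent.TH345.ET

section
variable {K : Type} [Field K] [NumberField K]

lemma hE_gt (W : HeightOneSpectrum (𝓞 K) → WeierstrassCurve (𝓞 K)) {s : ℂ} (hs : 1 < s.re) :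
    ‖hE W s‖ ≤ 24 ^ (S6 : Finset (HeightOneSpectrum (𝓞 K))).card ∧
    ‖(hE W s)⁻¹‖ ≤ 24 ^ (S6 : Finset (HeightOneSpectrum (𝓞 K))).card := by
  have hs' : 3 / 2 < (s + 1 / 2).re := by
    have : (s + 1 / 2).re = s.re + 1 / 2 := by simp
    rw [this]
    linarith
  unfold hE
  constructor
  · rw [norm_prod]
    calc _ ≤ ∏ v ∈ (S6 : Finset (HeightOneSpectrum (𝓞 K))), (24 : ℝ) :=
          Finset.prod_le_prod (fun _ _ => norm_nonneg _) fun v _ => (elf_triv W v hs').1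
      _ = _ := by rw [Finset.prod_const]
  · rw [← Finset.prod_inv_distrib, norm_prod]
    calc _ ≤ ∏ v ∈ (S6 : Finset (HeightOneSpectrum (𝓞 K))), (24 : ℝ) :=
          Finset.prod_le_prod (fun _ _ => norm_nonneg _) fun v _ => (elf_triv W v hs').2
      _ = _ := by rw [Finset.prod_const]

lemma hE_ne (W : HeightOneSpectrum (𝓞 K) → WeierstrassCurve (𝓞 K)) {s : ℂ} (hs : 1 ≤ s.re) :
    hE W s ≠ 0 := by
  have hs' : 3 / 2 ≤ (s + 1 / 2).re := by
    have : (s + 1 / 2).re = s.re + 1 / 2 := by simp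
    rw [this]
    linarith
  unfold hE
  refine Finset.prod_ne_zero_iff.2 fun v _ => ?_
  unfold elf lfac
  refine inv_ne_zero ?_
  refine den_ne (two_le_nm v) (av_triv W v) ?_ hs'
  split_ifs
  · simp
  · simp

lemma hE_ep (W : HeightOneSpectrum (𝓞 K) → WeierstrassCurve (𝓞 K)) (τ : ℝ) :
    ‖hE W (ep τ)‖ ≤ 24 ^ (S6 : Finset (HeightOneSpectrum (𝓞 K))).card ∧
    ‖(hE W (ep τ))⁻¹‖ ≤ 24 ^ (S6 : Finset (HeightOneSpectrum (𝓞 K))).card := by
  have h1 : Tendsto (fun x : ℝ => hE W (1 + τ * Complex.I + x : ℂ)) (𝓝[>] 0)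
      (𝓝 (hE W (ep τ))) := (hE_analytic W τ).continuousAt.tendsto.comp (tendsto_ep τ)
  have hne : hE W (ep τ) ≠ 0 := hE_ne W (by unfold ep; simp)
  have hre : ∀ x : ℝ, 0 < x → 1 < (1 + τ * Complex.I + x : ℂ).re := by
    intro x hx
    simpa using hx
  constructor
  · refine le_of_tendsto h1.norm ?_
    filter_upwards [self_mem_nhdsWithin] with x hx
    exact (hE_gt W (hre x hx)).1
  · refine le_of_tendsto (h1.inv₀ hne).norm ?_
    filter_upwards [self_mem_nhdsWithin] with x hx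
    exact (hE_gt W (hre x hx)).2

lemma pow_bd {E : ℂ} {n : ℕ} {d r : ℝ} (hE0 : E ≠ 0) (hn : (n : ℝ) ≤ d) (h1 : ‖E‖ ≤ 24 ^ n)
    (h2 : ‖E⁻¹‖ ≤ 24 ^ n) (hr : d * |r| ≤ 1) : 1 / 24 ≤ ‖E‖ ^ r ∧ ‖E‖ ^ r ≤ 24 := by
  have h3 := norm_rpow_le hn h1 h2 hr
  have h4 : ‖E‖ ^ (-r) ≤ 24 := norm_rpow_le hn h1 h2 (by rwa [abs_neg])
  refine ⟨?_, h3⟩
  have h5 : 0 < ‖E‖ := norm_pos_iff.2 hE0
  have h6 : 0 < ‖E‖ ^ r := Real.rpow_pos_of_pos h5 r
  rw [Real.rpow_neg h5.le, inv_le_comm₀ h6 (by norm_num)] at h4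
  simpa using h4

/-- the factor of the primes above `6`, as a weight on the edge -/
noncomputable def gw (W : HeightOneSpectrum (𝓞 K) → WeierstrassCurve (𝓞 K)) (r u : ℝ) : ℝ :=
  ‖hE W (ep u)‖ ^ r

lemma gw_bd (W : HeightOneSpectrum (𝓞 K) → WeierstrassCurve (𝓞 K)) {r : ℝ}
    (hr : 2 * Module.finrank ℚ K * |r| ≤ 1) (u : ℝ) : 1 / 24 ≤ gw W r u ∧ gw W r u ≤ 24 :=
  pow_bd (hE_ne W (by unfold ep; simp)) card_S6 (hE_ep W u).1 (hE_ep W u).2 hr

lemma gw_cont (W : HeightOneSpectrum (𝓞 K) → WeierstrassCurve (𝓞 K)) (r : ℝ) :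
    Continuous (gw W r) := by
  rw [continuous_iff_continuousAt]
  intro u
  unfold gw
  have h1 : ContinuousAt (fun u : ℝ => hE W (ep u)) u := by
    refine ContinuousAt.comp (g := hE W) (f := ep) (hE_analytic W u).continuousAt ?_
    unfold ep
    fun_prop
  refine ContinuousAt.rpow_const h1.norm (Or.inl ?_)
  exact norm_ne_zero_iff.2 (hE_ne W (by unfold ep; simp))

lemma norm_bv (W : HeightOneSpectrum (𝓞 K) → WeierstrassCurve (𝓞 K)) (b : PP → ℂ) (r u : ℝ) :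
    ‖bv b (hE W) u‖ ^ r = gw W r u * ‖Complex.exp (bl b u)‖ ^ r := by
  unfold bv gw
  rw [norm_mul, Real.mul_rpow (norm_nonneg _) (norm_nonneg _)]

end

end Pool.Agent.U823.EW
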