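import Pool.Agent.N881.RP.A

/-!
# Weights on the edge: two-sided bounds, Muckenhoupt's condition, exponential integrability
-/

set_option autoImplicit false

namespace Pool.Agent.U823.EW

open MeasureTheory Filter Topology
open Pool.Agent.TH339.MP

section
variable {b : PP → ℂ} {M : ℝ}

lemma norm_exp_mul (z : ℂ) (r : ℝ) :
    ‖Complex.exp ((r : ℂ) * z)‖ = ‖Complex.exp z‖ ^ r := by
  rw [Complex.norm_exp, Complex.norm_exp, ← Real.exp_mul]
  congr 1
  simp [mul_comm]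

/-- Harnack's inequality for the real powers -/
lemma pow_harnack (hb : ∀ x, ‖b x‖ ≤ M / (x.2 + 1 : ℕ)) {h : ℝ} (hh : 0 < h) (hh2 : h ≤ 1 / 2)
    (t : ℝ) {r : ℝ} (hr : |r| * M < 1) :
    IntegrableOn (fun u => ‖Complex.exp (bl b u)‖ ^ r) (Set.Icc (t - h / 2) (t + h / 2)) ∧
    (1 - |r| * M) / 1000 * h * ‖Complex.exp (FF b (((1 + h : ℝ) : ℂ) + t * Complex.I))‖ ^ r ≤
      ∫ u in (t - h / 2)..(t + h / 2), ‖Complex.exp (bl b u)‖ ^ r ∧
    ∫ u in (t - h / 2)..(t + h / 2), ‖Complex.exp (bl b u)‖ ^ r ≤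
      1000 / (1 - |r| * M) * h *
        ‖Complex.exp (FF b (((1 + h : ℝ) : ℂ) + t * Complex.I))‖ ^ r := by
  have h1 := edge_harnack hb hh hh2 t (r : ℂ) (by rwa [Complex.norm_real, Real.norm_eq_abs])
  simp_rw [norm_exp_mul, Complex.norm_real, Real.norm_eq_abs] at h1
  exact h1

/-- the size of the Dirichlet series -/
lemma norm_FF_le (hb : ∀ x, ‖b x‖ ≤ M / (x.2 + 1 : ℕ)) {σ : ℝ} (hσ : 1 < σ) (t : ℝ) :
    ‖FF b ((σ : ℂ) + t * Complex.I)‖ ≤ M * ZZ σ := by
  have hs := summable_wt hσ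
  have hle : ∀ x, ‖tm b ((σ : ℂ) + t * Complex.I) x‖ ≤ M * (wt σ x / (x.2 + 1 : ℕ)) := by
    intro x
    rw [tm_eq, norm_mul, norm_ee, mul_one, norm_mul, Complex.norm_real,
      Real.norm_of_nonneg (wt_nonneg _ x)]
    refine (mul_le_mul_of_nonneg_right (hb x) (wt_nonneg _ x)).trans (le_of_eq ?_)
    ring
  have hsn : Summable fun x => ‖tm b ((σ : ℂ) + t * Complex.I) x‖ :=
    Summable.of_nonneg_of_le (fun _ => norm_nonneg _) hle (hs.mul_left M)
  unfold FF ZZ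
  rw [← tsum_mul_left]
  exact (norm_tsum_le_tsum_norm hsn).trans (hsn.tsum_le_tsum hle (hs.mul_left M))

/-- the value at height `1/2` above the edge -/
lemma value_half (hb : ∀ x, ‖b x‖ ≤ M / (x.2 + 1 : ℕ)) (t : ℝ) {r : ℝ} (hr : |r| * M < 1) :
    ‖Complex.exp (FF b (((1 + 1 / 2 : ℝ) : ℂ) + t * Complex.I))‖ ^ r ≤ 6 := by
  have hσ : (1 : ℝ) < 1 + 1 / 2 := by norm_num
  have h1 := norm_FF_le hb hσ t
  set Z : ℝ := ZZ (1 + 1 / 2) with hZ
  have h2 : Real.exp Z ≤ 6 := by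
    have h3 := Pool.Agent.N881.RP.ZZ_le (y := 1 / 2) (by norm_num) (by norm_num)
    have h4 : Real.log 3 - Real.log (1 / 2) = Real.log 6 := by
      rw [← Real.log_div (by norm_num) (by norm_num)]
      norm_num
    rw [h4] at h3
    calc Real.exp Z ≤ Real.exp (Real.log 6) := Real.exp_le_exp.2 h3
      _ = 6 := Real.exp_log (by norm_num)
  rw [← norm_exp_mul]
  refine (Complex.norm_exp_le_exp_norm _).trans ?_
  rw [norm_mul, Complex.norm_real, Real.norm_eq_abs]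
  have hZ0 : 0 ≤ Z := tsum_nonneg fun x => div_nonneg (wt_nonneg _ _) (Nat.cast_nonneg _)
  refine le_trans (Real.exp_le_exp.2 ?_) h2
  calc |r| * ‖FF b (((1 + 1 / 2 : ℝ) : ℂ) + t * Complex.I)‖ ≤ |r| * (M * Z) :=
        mul_le_mul_of_nonneg_left h1 (abs_nonneg r)
    _ = (|r| * M) * Z := by ring
    _ ≤ 1 * Z := mul_le_mul_of_nonneg_right hr.le hZ0
    _ = Z := one_mul Z

/-- Two-sided bounds for a weight `g · |exp (bl b)|^r`, where `1/24 ≤ g ≤ 24`. -/
theorem two_sided (hb : ∀ x, ‖b x‖ ≤ M / (x.2 + 1 : ℕ)) {r : ℝ} (hr : |r| * M < 1)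
    {g : ℝ → ℝ} (hgc : Continuous g) (hg : ∀ u, 1 / 24 ≤ g u ∧ g u ≤ 24) {h : ℝ} (hh : 0 < h)
    (hh2 : h ≤ 1 / 2) (t : ℝ) :
    IntegrableOn (fun u => g u * ‖Complex.exp (bl b u)‖ ^ r) (Set.Icc (t - h / 2) (t + h / 2)) ∧
    (1 - |r| * M) / 24000 * h * ‖Complex.exp (FF b (((1 + h : ℝ) : ℂ) + t * Complex.I))‖ ^ r ≤
      ∫ u in (t - h / 2)..(t + h / 2), g u * ‖Complex.exp (bl b u)‖ ^ r ∧
    ∫ u in (t - h / 2)..(t + h / 2), g u * ‖Complex.exp (bl b u)‖ ^ r ≤
      24000 / (1 - |r| * M) * h *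
        ‖Complex.exp (FF b (((1 + h : ℝ) : ℂ) + t * Complex.I))‖ ^ r := by
  obtain ⟨h1, h2, h3⟩ := pow_harnack hb hh hh2 t hr
  have hle : t - h / 2 ≤ t + h / 2 := by linarith
  have hI : IntegrableOn (fun u => g u * ‖Complex.exp (bl b u)‖ ^ r)
      (Set.Icc (t - h / 2) (t + h / 2)) := by
    refine h1.bdd_mul (c := 24) hgc.aestronglyMeasurable ?_
    filter_upwards with u
    rw [Real.norm_of_nonneg (by have := (hg u).1; linarith)]
    exact (hg u).2
  have hi1 : IntervalIntegrable (fun u => ‖Complex.exp (bl b u)‖ ^ r) volume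
      (t - h / 2) (t + h / 2) := by
    rw [intervalIntegrable_iff_integrableOn_Icc_of_le hle]
    exact h1
  have hi2 : IntervalIntegrable (fun u => g u * ‖Complex.exp (bl b u)‖ ^ r) volume
      (t - h / 2) (t + h / 2) := by
    rw [intervalIntegrable_iff_integrableOn_Icc_of_le hle]
    exact hI
  have hκ : 0 < 1 - |r| * M := by linarith
  refine ⟨hI, ?_, ?_⟩
  · have h4 : ∫ u in (t - h / 2)..(t + h / 2), (1 / 24) * ‖Complex.exp (bl b u)‖ ^ r ≤
        ∫ u in (t - h / 2)..(t + h / 2), g u * ‖Complex.exp (bl b u)‖ ^ r := by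
      refine intervalIntegral.integral_mono_on hle (hi1.const_mul _) hi2 fun u _ => ?_
      exact mul_le_mul_of_nonneg_right (hg u).1 (Real.rpow_nonneg (norm_nonneg _) _)
    rw [intervalIntegral.integral_const_mul] at h4
    refine le_trans (le_of_eq ?_) ((mul_le_mul_of_nonneg_left h2 (by norm_num)).trans h4)
    ring
  · have h4 : ∫ u in (t - h / 2)..(t + h / 2), g u * ‖Complex.exp (bl b u)‖ ^ r ≤
        ∫ u in (t - h / 2)..(t + h / 2), 24 * ‖Complex.exp (bl b u)‖ ^ r := by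
      refine intervalIntegral.integral_mono_on hle hi2 (hi1.const_mul _) fun u _ => ?_
      exact mul_le_mul_of_nonneg_right (hg u).2 (Real.rpow_nonneg (norm_nonneg _) _)
    rw [intervalIntegral.integral_const_mul] at h4
    refine h4.trans ((mul_le_mul_of_nonneg_left h3 (by norm_num)).trans (le_of_eq ?_))
    ring

/-- the weight is integrable on bounded intervals, and the integral over a long interval is at most
a constant times the length -/
theorem long (hb : ∀ x, ‖b x‖ ≤ M / (x.2 + 1 : ℕ)) {r : ℝ} (hr : |r| * M < 1)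
    {g : ℝ → ℝ} (hgc : Continuous g) (hg : ∀ u, 1 / 24 ≤ g u ∧ g u ≤ 24) (a : ℝ) (n : ℕ) :
    IntervalIntegrable (fun u => g u * ‖Complex.exp (bl b u)‖ ^ r) volume a (a + n / 2) ∧
    ∫ u in a..(a + n / 2), g u * ‖Complex.exp (bl b u)‖ ^ r ≤
      144000 / (1 - |r| * M) * (n / 2) := by
  induction n with
  | zero => simp
  | succ n ih =>
    obtain ⟨h1, h2⟩ := ih
    obtain ⟨h3, -, h4⟩ := two_sided hb hr hgc hg (h := 1 / 2) (by norm_num) le_rfl
      (a + n / 2 + 1 / 4)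
    have e1 : a + n / 2 + 1 / 4 - 1 / 2 / 2 = a + n / 2 := by ring
    have e2 : a + n / 2 + 1 / 4 + 1 / 2 / 2 = a + (n + 1 : ℕ) / 2 := by push_cast; ring
    rw [e1, e2] at h3 h4
    have h5 := value_half hb (a + n / 2 + 1 / 4) hr
    have hκ : 0 < 1 - |r| * M := by linarith
    have hle : a + (n : ℝ) / 2 ≤ a + (n + 1 : ℕ) / 2 := by push_cast; linarith
    have h3' : IntervalIntegrable (fun u => g u * ‖Complex.exp (bl b u)‖ ^ r) volume
        (a + n / 2) (a + (n + 1 : ℕ) / 2) := by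
      rw [intervalIntegrable_iff_integrableOn_Icc_of_le hle]
      exact h3
    refine ⟨h1.trans h3', ?_⟩
    rw [← intervalIntegral.integral_add_adjacent_intervals h1 h3']
    have h6 : 24000 / (1 - |r| * M) * (1 / 2) * ‖Complex.exp (FF b (((1 + 1 / 2 : ℝ) : ℂ) +
        ((a + n / 2 + 1 / 4 : ℝ) : ℂ) * Complex.I))‖ ^ r ≤
        24000 / (1 - |r| * M) * (1 / 2) * 6 :=
      mul_le_mul_of_nonneg_left h5 (by positivity)
    calc _ ≤ 144000 / (1 - |r| * M) * (n / 2) + 24000 / (1 - |r| * M) * (1 / 2) * 6 :=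
          add_le_add h2 (h4.trans h6)
      _ = _ := by push_cast; ring

/-- integrability on all bounded intervals -/
theorem integrable (hb : ∀ x, ‖b x‖ ≤ M / (x.2 + 1 : ℕ)) {r : ℝ} (hr : |r| * M < 1)
    {g : ℝ → ℝ} (hgc : Continuous g) (hg : ∀ u, 1 / 24 ≤ g u ∧ g u ≤ 24) {a c : ℝ} (hac : a ≤ c) :
    IntervalIntegrable (fun u => g u * ‖Complex.exp (bl b u)‖ ^ r) volume a c := by
  obtain ⟨h1, -⟩ := long hb hr hgc hg a ⌈2 * (c - a)⌉₊
  refine h1.mono_set ?_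
  have h2 := Nat.le_ceil (2 * (c - a))
  rw [Set.uIcc_of_le hac, Set.uIcc_of_le (by linarith)]
  exact Set.Icc_subset_Icc le_rfl (by linarith)

lemma weight_nonneg {g : ℝ → ℝ} (hg : ∀ u, 1 / 24 ≤ g u ∧ g u ≤ 24) (r : ℝ) (u : ℝ) :
    0 ≤ g u * ‖Complex.exp (bl b u)‖ ^ r :=
  mul_nonneg (by have := (hg u).1; linarith) (Real.rpow_nonneg (norm_nonneg _) _)

/-- **Muckenhoupt's condition** `A₂` on all intervals. -/
theorem muck (hb : ∀ x, ‖b x‖ ≤ M / (x.2 + 1 : ℕ)) {r : ℝ} (hr : |r| * M < 1)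
    {g g' : ℝ → ℝ} (hgc : Continuous g) (hg : ∀ u, 1 / 24 ≤ g u ∧ g u ≤ 24)
    (hgc' : Continuous g') (hg' : ∀ u, 1 / 24 ≤ g' u ∧ g' u ≤ 24) {a c : ℝ} (hac : a < c) :
    (∫ u in a..c, g u * ‖Complex.exp (bl b u)‖ ^ r) *
      (∫ u in a..c, g' u * ‖Complex.exp (bl b u)‖ ^ (-r)) ≤
      (288000 / (1 - |r| * M)) ^ 2 * (c - a) ^ 2 := by
  have hr' : |(-r)| * M < 1 := by rwa [abs_neg]
  have hκ : 0 < 1 - |r| * M := by linarith
  have hca : 0 < c - a := by linarith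
  rcases le_or_gt (c - a) (1 / 2) with hs | hs
  · -- short intervals
    obtain ⟨-, -, h1⟩ := two_sided hb hr hgc hg hca hs ((a + c) / 2)
    obtain ⟨-, -, h2⟩ := two_sided hb hr' hgc' hg' hca hs ((a + c) / 2)
    have e1 : (a + c) / 2 - (c - a) / 2 = a := by ring
    have e2 : (a + c) / 2 + (c - a) / 2 = c := by ring
    rw [e1, e2] at h1 h2
    rw [abs_neg] at h2
    set w : ℝ := ‖Complex.exp (FF b (((1 + (c - a) : ℝ) : ℂ) +
      (((a + c) / 2 : ℝ) : ℂ) * Complex.I))‖ with hw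
    have hw0 : 0 < w := by rw [hw, Complex.norm_exp]; exact Real.exp_pos _
    have h3 : w ^ r * w ^ (-r) = 1 := by
      rw [← Real.rpow_add hw0, add_neg_cancel, Real.rpow_zero]
    have h4 : 0 ≤ ∫ u in a..c, g' u * ‖Complex.exp (bl b u)‖ ^ (-r) :=
      intervalIntegral.integral_nonneg hac.le fun u _ => weight_nonneg hg' _ _
    refine (mul_le_mul h1 h2 h4 (by positivity)).trans ?_
    have h5 : 24000 / (1 - |r| * M) * (c - a) * w ^ r *
        (24000 / (1 - |r| * M) * (c - a) * w ^ (-r)) =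
        (24000 / (1 - |r| * M)) ^ 2 * (c - a) ^ 2 * (w ^ r * w ^ (-r)) := by ring
    rw [h5, h3, mul_one]
    refine mul_le_mul_of_nonneg_right ?_ (by positivity)
    refine pow_le_pow_left₀ (by positivity) ?_ 2
    exact div_le_div_of_nonneg_right (by norm_num) hκ.le
  · -- long intervals
    have key : ∀ {r : ℝ} (hr : |r| * M < 1) {g : ℝ → ℝ} (hgc : Continuous g)
        (hg : ∀ u, 1 / 24 ≤ g u ∧ g u ≤ 24),
        ∫ u in a..c, g u * ‖Complex.exp (bl b u)‖ ^ r ≤ 288000 / (1 - |r| * M) * (c - a) := by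
      intro r hr g hgc hg
      have hκ : 0 < 1 - |r| * M := by linarith
      obtain ⟨h1, h2⟩ := long hb hr hgc hg a ⌈2 * (c - a)⌉₊
      have h3 := Nat.le_ceil (2 * (c - a))
      have h4 := Nat.ceil_lt_add_one (a := 2 * (c - a)) (by linarith)
      have hle : c ≤ a + (⌈2 * (c - a)⌉₊ : ℝ) / 2 := by linarith
      have h5 : ∫ u in a..c, g u * ‖Complex.exp (bl b u)‖ ^ r ≤
          ∫ u in a..(a + (⌈2 * (c - a)⌉₊ : ℝ) / 2), g u * ‖Complex.exp (bl b u)‖ ^ r := by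
        refine intervalIntegral.integral_mono_interval le_rfl hac.le hle ?_ h1
        exact ae_of_all _ fun u => weight_nonneg hg _ _
      refine h5.trans (h2.trans ?_)
      calc 144000 / (1 - |r| * M) * ((⌈2 * (c - a)⌉₊ : ℝ) / 2) ≤
          144000 / (1 - |r| * M) * (2 * (c - a)) :=
            mul_le_mul_of_nonneg_left (by linarith) (by positivity)
        _ = _ := by ring
    have h1 := key hr hgc hg
    have h2 := key hr' hgc' hg'
    rw [abs_neg] at h2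
    have h4 : 0 ≤ ∫ u in a..c, g' u * ‖Complex.exp (bl b u)‖ ^ (-r) :=
      intervalIntegral.integral_nonneg hac.le fun u _ => weight_nonneg hg' _ _
    refine (mul_le_mul h1 h2 h4 (by positivity)).trans (le_of_eq ?_)
    ring

end

end Pool.Agent.U823.EW
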